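import Mathlib

/-!
# Edges of the one-inclusion graph of a family of bounded VC-dimension

If a finite family `T` of finite sets has VC-dimension `d`, then the number of pairs `(Q, a)` with
`a ∉ Q`, `Q ∈ T` and `insert a Q ∈ T` is at most `d * #T` (Haussler, Littlestone, Warmuth).
-/

set_option autoImplicit false

namespace Pool.Agent.Helper18

open Finset

variable {α : Type*} [DecidableEq α]

/-- The members `Q` of `T` with `a ∉ Q` and `insert a Q ∈ T`. -/
def edgesAt (T : Finset (Finset α)) (a : α) : Finset (Finset α) :=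
  T.filter (fun Q => a ∉ Q ∧ insert a Q ∈ T)

lemma mem_edgesAt {T : Finset (Finset α)} {a : α} {Q : Finset α} :
    Q ∈ edgesAt T a ↔ Q ∈ T ∧ a ∉ Q ∧ insert a Q ∈ T := by
  simp [edgesAt]

lemma card_edgesAt_self (T : Finset (Finset α)) (a : α) :
    #(edgesAt T a) = #(nonMemberSubfamily a T ∩ memberSubfamily a T) := by
  congr 1
  ext Q
  simp only [mem_edgesAt, mem_inter, mem_nonMemberSubfamily, mem_memberSubfamily]
  tauto

lemma card_edgesAt_ne (T : Finset (Finset α)) {a b : α} (hab : a ≠ b) :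
    #(edgesAt T b) = #(edgesAt (nonMemberSubfamily a T) b) + #(edgesAt (memberSubfamily a T) b) := by
  classical
  have h1 : edgesAt (nonMemberSubfamily a T) b = (edgesAt T b).filter (fun Q => a ∉ Q) := by
    ext Q
    simp only [mem_edgesAt, mem_nonMemberSubfamily, mem_filter, mem_insert, not_or]
    constructor
    · rintro ⟨⟨h1, h2⟩, h3, h4, h5⟩
      exact ⟨⟨h1, h3, h4⟩, h2⟩
    · rintro ⟨⟨h1, h3, h4⟩, h2⟩
      exact ⟨⟨h1, h2⟩, h3, h4, hab, h2⟩
  have h2 : #(edgesAt (memberSubfamily a T) b) = #((edgesAt T b).filter (fun Q => ¬ a ∉ Q)) := by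
    refine card_bij' (fun Q _ => insert a Q) (fun Q _ => Q.erase a) ?_ ?_ ?_ ?_
    · intro Q hQ
      simp only [mem_edgesAt, mem_memberSubfamily, mem_filter, mem_insert, not_or, not_not] at hQ ⊢
      obtain ⟨⟨h1, h2⟩, h3, h4, h5, h6⟩ := hQ
      refine ⟨⟨h1, ⟨hab.symm, h3⟩, ?_⟩, by simp⟩
      rw [insert_comm]
      exact h4
    · intro Q hQ
      simp only [mem_edgesAt, mem_memberSubfamily, mem_filter, not_not] at hQ ⊢
      obtain ⟨⟨h1, h2, h3⟩, h4⟩ := hQ
      refine ⟨⟨?_, ?_⟩, ?_, ?_, ?_⟩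
      · rw [insert_erase h4]; exact h1
      · simp
      · intro h; exact h2 (mem_of_mem_erase h)
      · rw [insert_comm, insert_erase h4]; exact h3
      · simp [hab]
    · intro Q hQ
      simp only [mem_edgesAt, mem_memberSubfamily] at hQ
      exact erase_insert hQ.1.2
    · intro Q hQ
      simp only [mem_edgesAt, mem_filter, not_not] at hQ
      exact insert_erase hQ.2
  rw [h1, h2, card_filter_add_card_filter_not]

lemma card_edgesAt_add_le (T₀ T₁ : Finset (Finset α)) (b : α) :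
    #(edgesAt T₀ b) + #(edgesAt T₁ b) ≤ #(edgesAt (T₀ ∪ T₁) b) + #(edgesAt (T₀ ∩ T₁) b) := by
  rw [← card_union_add_card_inter]
  refine add_le_add (card_le_card ?_) (card_le_card ?_)
  · intro Q hQ
    simp only [mem_union, mem_edgesAt] at hQ ⊢
    tauto
  · intro Q hQ
    simp only [mem_inter, mem_edgesAt] at hQ ⊢
    tauto

lemma vcDim_union_le (T : Finset (Finset α)) (a : α) :
    (nonMemberSubfamily a T ∪ memberSubfamily a T).vcDim ≤ T.vcDim := by
  refine Finset.sup_le fun S hS => ?_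
  rw [mem_shatterer] at hS
  have haS : a ∉ S := by
    intro ha
    obtain ⟨u, hu, hSu⟩ := hS.exists_superset
    simp only [mem_union, mem_nonMemberSubfamily, mem_memberSubfamily] at hu
    have := hSu ha
    tauto
  refine Shatters.card_le_vcDim (𝒜 := T) ?_
  intro t ht
  obtain ⟨u, hu, rfl⟩ := hS ht
  simp only [mem_union, mem_nonMemberSubfamily, mem_memberSubfamily] at hu
  rcases hu with hu | hu
  · exact ⟨u, hu.1, rfl⟩
  · exact ⟨insert a u, hu.1, inter_insert_of_notMem haS⟩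

lemma vcDim_inter_add_one_le (T : Finset (Finset α)) (a : α)
    (hne : (nonMemberSubfamily a T ∩ memberSubfamily a T).Nonempty) :
    (nonMemberSubfamily a T ∩ memberSubfamily a T).vcDim + 1 ≤ T.vcDim := by
  set R := nonMemberSubfamily a T ∩ memberSubfamily a T with hR
  have hsh : (∅ : Finset α) ∈ R.shatterer := by
    rw [mem_shatterer]; exact shatters_empty.2 hne
  obtain ⟨S, hS, hmax⟩ := exists_mem_eq_sup R.shatterer ⟨_, hsh⟩ card
  have hv : R.vcDim = #S := hmax
  rw [hv]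
  rw [mem_shatterer] at hS
  have haS : a ∉ S := by
    intro ha
    obtain ⟨u, hu, hSu⟩ := hS.exists_superset
    simp only [hR, mem_inter, mem_nonMemberSubfamily, mem_memberSubfamily] at hu
    exact hu.1.2 (hSu ha)
  rw [← card_insert_of_notMem haS]
  refine Shatters.card_le_vcDim (𝒜 := T) ?_
  intro t ht
  have ht' : t.erase a ⊆ S := by
    intro x hx
    rcases mem_insert.1 (ht (mem_of_mem_erase hx)) with h | h
    · exact absurd h (ne_of_mem_erase hx)
    · exact h
  obtain ⟨u, hu, hut⟩ := hS ht'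
  simp only [hR, mem_inter, mem_nonMemberSubfamily, mem_memberSubfamily] at hu
  by_cases hat : a ∈ t
  · refine ⟨insert a u, hu.2.1, ?_⟩
    rw [← insert_inter_distrib, hut, insert_erase hat]
  · refine ⟨u, hu.1.1, ?_⟩
    rw [insert_inter_of_notMem hu.1.2, hut, erase_eq_of_notMem hat]

/-- The number of edges of the one-inclusion graph is at most VC-dimension times size. -/
theorem sum_edgesAt_le (s : Finset α) : ∀ T : Finset (Finset α), (∀ Q ∈ T, Q ⊆ s) →
    ∑ a ∈ s, #(edgesAt T a) ≤ T.vcDim * #T := by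
  induction s using Finset.induction_on with
  | empty => intro T _; simp
  | insert a s ha ih =>
    intro T hT
    set T₀ := nonMemberSubfamily a T with hT₀
    set T₁ := memberSubfamily a T with hT₁
    have hs0 : ∀ Q ∈ T₀, Q ⊆ s := by
      intro Q hQ
      rw [hT₀, mem_nonMemberSubfamily] at hQ
      intro x hx
      rcases mem_insert.1 (hT Q hQ.1 hx) with h | h
      · subst h; exact absurd hx hQ.2
      · exact h
    have hs1 : ∀ Q ∈ T₁, Q ⊆ s := by
      intro Q hQ
      rw [hT₁, mem_memberSubfamily] at hQ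
      intro x hx
      rcases mem_insert.1 (hT _ hQ.1 (mem_insert_of_mem hx)) with h | h
      · subst h; exact absurd hx hQ.2
      · exact h
    rw [sum_insert ha, card_edgesAt_self]
    have h1 : ∑ b ∈ s, #(edgesAt T b) ≤
        ∑ b ∈ s, #(edgesAt (T₀ ∪ T₁) b) + ∑ b ∈ s, #(edgesAt (T₀ ∩ T₁) b) := by
      rw [← sum_add_distrib]
      refine sum_le_sum fun b hb => ?_
      have hab : a ≠ b := by rintro rfl; exact ha hb
      rw [card_edgesAt_ne T hab]
      exact card_edgesAt_add_le _ _ _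
    have h2 := ih (T₀ ∪ T₁) (by
      intro Q hQ
      rcases mem_union.1 hQ with h | h
      exacts [hs0 Q h, hs1 Q h])
    have h3 := ih (T₀ ∩ T₁) (fun Q hQ => hs0 Q (mem_inter.1 hQ).1)
    have h4 : (T₀ ∪ T₁).vcDim ≤ T.vcDim := vcDim_union_le T a
    have h5 : (T₀ ∩ T₁).vcDim * #(T₀ ∩ T₁) + #(T₀ ∩ T₁) ≤ T.vcDim * #(T₀ ∩ T₁) := by
      rcases (T₀ ∩ T₁).eq_empty_or_nonempty with h | h
      · rw [h]; simp
      · have := vcDim_inter_add_one_le T a h
        calc (T₀ ∩ T₁).vcDim * #(T₀ ∩ T₁) + #(T₀ ∩ T₁)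
            = ((T₀ ∩ T₁).vcDim + 1) * #(T₀ ∩ T₁) := by ring
          _ ≤ _ := Nat.mul_le_mul_right _ this
    have h6 : #T = #(T₀ ∪ T₁) + #(T₀ ∩ T₁) := by
      rw [card_union_add_card_inter, hT₀, hT₁, add_comm,
        card_memberSubfamily_add_card_nonMemberSubfamily]
    have h7 : (T₀ ∪ T₁).vcDim * #(T₀ ∪ T₁) ≤ T.vcDim * #(T₀ ∪ T₁) := Nat.mul_le_mul_right _ h4
    calc #(T₀ ∩ T₁) + ∑ b ∈ s, #(edgesAt T b)
        ≤ #(T₀ ∩ T₁) + ((T₀ ∪ T₁).vcDim * #(T₀ ∪ T₁) + (T₀ ∩ T₁).vcDim * #(T₀ ∩ T₁)) := by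
          refine Nat.add_le_add_left (h1.trans (add_le_add h2 h3)) _
      _ ≤ T.vcDim * #(T₀ ∪ T₁) + T.vcDim * #(T₀ ∩ T₁) := by omega
      _ = T.vcDim * #T := by rw [h6]; ring

end Pool.Agent.Helper18
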