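import Mathlib
import Pool.Agent.Helper18.EdgeVC

/-!
# Haussler's packing lemma

A family of finite sets of VC-dimension at most `d` on `n` points, any two different members of
which differ in at least `δ` points, has at most `2 (m + 1) ^ d` members as soon as
`m δ ≥ 4 d n`.
-/

set_option autoImplicit false
set_option linter.unusedSectionVars false

namespace Pool.Agent.Helper18

open Finset

variable {α : Type*} [DecidableEq α] [Fintype α] {m : ℕ}

/-- The trace of the set `A` on the tuple `x`. -/
def trc (x : Fin m → α) (A : Finset α) : Finset (Fin m) := univ.filter (fun i => x i ∈ A)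

lemma mem_trc {x : Fin m → α} {A : Finset α} {i : Fin m} : i ∈ trc x A ↔ x i ∈ A := by
  simp [trc]

/-- Traces on tuples do not increase the VC-dimension. -/
lemma vcDim_trc_le (F : Finset (Finset α)) (x : Fin m → α) :
    (F.image (trc x)).vcDim ≤ F.vcDim := by
  refine Finset.sup_le fun S hS => ?_
  rw [mem_shatterer] at hS
  have hinj : Set.InjOn x S := by
    intro i hi j hj hij
    by_contra hne
    obtain ⟨u, hu, hSu⟩ := hS (singleton_subset_iff.2 (mem_coe.1 hi))
    obtain ⟨A, hA, rfl⟩ := mem_image.1 hu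
    have h1 : i ∈ S ∩ trc x A := by rw [hSu]; simp
    have h2 : x i ∈ A := mem_trc.1 (mem_inter.1 h1).2
    have h3 : j ∈ S ∩ trc x A := mem_inter.2 ⟨hj, mem_trc.2 (hij ▸ h2)⟩
    rw [hSu, mem_singleton] at h3
    exact hne h3.symm
  rw [← card_image_of_injOn hinj]
  refine Shatters.card_le_vcDim (𝒜 := F) ?_
  intro t ht
  obtain ⟨u, hu, hSu⟩ := hS (t := S.filter (fun i => x i ∈ t)) (filter_subset _ _)
  obtain ⟨A, hA, rfl⟩ := mem_image.1 hu
  refine ⟨A, hA, ?_⟩
  ext y
  constructor
  · intro hy
    obtain ⟨hy1, hy2⟩ := mem_inter.1 hy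
    obtain ⟨i, hi, rfl⟩ := mem_image.1 hy1
    have : i ∈ S ∩ trc x A := mem_inter.2 ⟨hi, mem_trc.2 hy2⟩
    rw [hSu] at this
    exact (mem_filter.1 this).2
  · intro hy
    obtain ⟨i, hi, rfl⟩ := mem_image.1 (ht hy)
    have : i ∈ S ∩ trc x A := by rw [hSu]; exact mem_filter.2 ⟨hi, hy⟩
    exact mem_inter.2 ⟨mem_image_of_mem _ hi, mem_trc.1 (mem_inter.1 this).2⟩

/-- The number of members of `F` with trace `Q` on `x`. -/
def wt (F : Finset (Finset α)) (x : Fin m → α) (Q : Finset (Fin m)) : ℕ :=
  #(F.filter (fun A => trc x A = Q))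

/-- The total weight of the edges in direction `i`. -/
def wEdge (F : Finset (Finset α)) (x : Fin m → α) (i : Fin m) : ℕ :=
  ∑ Q ∈ univ.filter (fun Q : Finset (Fin m) => i ∉ Q), min (wt F x Q) (wt F x (insert i Q))

lemma sum_wt (F : Finset (Finset α)) (x : Fin m → α) : ∑ Q, wt F x Q = #F := by
  unfold wt
  rw [← card_eq_sum_card_fiberwise]
  intro A _
  simp

lemma wt_le (F : Finset (Finset α)) (x : Fin m → α) (Q : Finset (Fin m)) : wt F x Q ≤ #F :=
  card_filter_le _ _

/-- Layer-cake formula for the minimum. -/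
lemma min_eq_sum (N a b : ℕ) (ha : a ≤ N) (_hb : b ≤ N) :
    min a b = ∑ t ∈ range N, if t < a ∧ t < b then 1 else 0 := by
  rw [← card_filter]
  have : (range N).filter (fun t => t < a ∧ t < b) = range (min a b) := by
    ext t
    simp only [mem_filter, mem_range, lt_min_iff]
    omega
  rw [this, card_range]

lemma eq_sum_layer (N a : ℕ) (ha : a ≤ N) :
    a = ∑ t ∈ range N, if t < a then 1 else 0 := by
  rw [← card_filter]
  have : (range N).filter (fun t => t < a) = range a := by
    ext t
    simp only [mem_filter, mem_range]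
    omega
  rw [this, card_range]

/-- The upper bound for the total weight of the edges. -/
theorem sum_wEdge_le (F : Finset (Finset α)) (d : ℕ) (hd : F.vcDim ≤ d) (x : Fin m → α) :
    ∑ i, wEdge F x i ≤ d * #F := by
  classical
  set N := #F with hN
  let T : ℕ → Finset (Finset (Fin m)) := fun t => univ.filter (fun Q => t < wt F x Q)
  have hT : ∀ t, (T t).vcDim ≤ d := by
    intro t
    refine (vcDim_mono ?_).trans ((vcDim_trc_le F x).trans hd)
    intro Q hQ
    have h1 : t < wt F x Q := (mem_filter.1 hQ).2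
    have h2 : 0 < wt F x Q := lt_of_le_of_lt (Nat.zero_le _) h1
    obtain ⟨A, hA⟩ := card_pos.1 h2
    rw [mem_filter] at hA
    exact mem_image.2 ⟨A, hA.1, hA.2⟩
  have h1 : ∀ i, wEdge F x i = ∑ t ∈ range N, #(edgesAt (T t) i) := by
    intro i
    unfold wEdge
    rw [sum_congr rfl (fun Q _ => min_eq_sum N _ _ (wt_le F x Q) (wt_le F x (insert i Q)))]
    rw [sum_comm]
    refine sum_congr rfl fun t _ => ?_
    rw [← card_filter]
    congr 1
    ext Q
    simp only [mem_filter, mem_univ, true_and, mem_edgesAt, T]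
    tauto
  calc ∑ i, wEdge F x i = ∑ i, ∑ t ∈ range N, #(edgesAt (T t) i) := sum_congr rfl fun i _ => h1 i
    _ = ∑ t ∈ range N, ∑ i, #(edgesAt (T t) i) := sum_comm
    _ ≤ ∑ t ∈ range N, (T t).vcDim * #(T t) :=
        sum_le_sum fun t _ => sum_edgesAt_le univ (T t) (fun Q _ => subset_univ Q)
    _ ≤ ∑ t ∈ range N, d * #(T t) := sum_le_sum fun t _ => Nat.mul_le_mul_right _ (hT t)
    _ = d * ∑ t ∈ range N, #(T t) := by rw [mul_sum]
    _ = d * N := by
        congr 1
        have : ∀ t, #(T t) = ∑ Q : Finset (Fin m), if t < wt F x Q then 1 else 0 := by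
          intro t
          rw [← card_filter]
        rw [sum_congr rfl (fun t _ => this t), sum_comm, hN, ← sum_wt F x]
        refine sum_congr rfl fun Q _ => ?_
        rw [sum_wt F x]
        exact (eq_sum_layer _ _ (wt_le F x Q)).symm

lemma trc_update (x : Fin m → α) (i : Fin m) (z : α) (A : Finset α) (Q : Finset (Fin m))
    (hQ : i ∉ Q) :
    trc (Function.update x i z) A = Q ↔ (trc x A).erase i = Q ∧ z ∉ A := by
  constructor
  · intro h
    constructor
    · rw [← h]
      ext j
      simp only [mem_erase, mem_trc, Function.update_apply]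
      constructor
      · rintro ⟨h1, h2⟩
        rw [if_neg h1]; exact h2
      · intro h1
        by_cases hj : j = i
        · subst hj
          exfalso
          apply hQ
          rw [← h, mem_trc, Function.update_apply]
          exact h1
        · rw [if_neg hj] at h1
          exact ⟨hj, h1⟩
    · intro hz
      apply hQ
      rw [← h, mem_trc]
      simpa using hz
  · rintro ⟨h1, h2⟩
    rw [← h1]
    ext j
    simp only [mem_erase, mem_trc, Function.update_apply]
    by_cases hj : j = i
    · subst hj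
      simp [h2]
    · simp [hj]

lemma trc_update_insert (x : Fin m → α) (i : Fin m) (z : α) (A : Finset α) (Q : Finset (Fin m))
    (hQ : i ∉ Q) :
    trc (Function.update x i z) A = insert i Q ↔ (trc x A).erase i = Q ∧ z ∈ A := by
  constructor
  · intro h
    have hz : z ∈ A := by
      have : i ∈ trc (Function.update x i z) A := by rw [h]; exact mem_insert_self _ _
      rw [mem_trc] at this
      simpa using this
    refine ⟨?_, hz⟩
    ext j
    by_cases hj : j = i
    · subst hj
      simp [hQ]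
    · have : j ∈ trc (Function.update x i z) A ↔ j ∈ insert i Q := by rw [h]
      simp only [mem_trc, Function.update_apply, hj, if_false, mem_insert, false_or] at this
      simp [mem_erase, hj, mem_trc, this]
  · rintro ⟨h1, h2⟩
    rw [← h1]
    ext j
    by_cases hj : j = i
    · subst hj
      simp [mem_trc, h2]
    · simp [mem_trc, hj]

/-- One class of equal traces, split by a further point. -/
lemma class_bound (C : Finset (Finset α)) (δ : ℕ)
    (hδ : ∀ A ∈ C, ∀ B ∈ C, A ≠ B → δ ≤ #(symmDiff A B)) :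
    δ * #C ≤ 2 * ∑ z, min #(C.filter (fun A => z ∉ A)) #(C.filter (fun A => z ∈ A)) +
      δ * (if C.Nonempty then 1 else 0) := by
  classical
  rcases C.eq_empty_or_nonempty with rfl | hne
  · simp
  rw [if_pos hne, mul_one]
  set b := #C with hb
  have hbpos : 0 < b := card_pos.2 hne
  let p : α → ℕ := fun z => #(C.filter (fun A => z ∉ A))
  let q : α → ℕ := fun z => #(C.filter (fun A => z ∈ A))
  have hpq : ∀ z, p z + q z = b := by
    intro z
    have := card_filter_add_card_filter_not (s := C) (fun A => z ∈ A)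
    simp only [p, q]
    omega
  have h1 : ∀ z, p z * q z ≤ b * min (p z) (q z) := by
    intro z
    have := hpq z
    rcases le_total (p z) (q z) with h | h
    · rw [min_eq_left h, mul_comm]
      exact Nat.mul_le_mul_right _ (by omega)
    · rw [min_eq_right h]
      exact Nat.mul_le_mul_right _ (by omega)
  -- sum of p z * q z counts triples
  have h2 : ∑ z, p z * q z = ∑ A ∈ C, ∑ B ∈ C, #(B \ A) := by
    have : ∀ z, p z * q z = ∑ A ∈ C, ∑ B ∈ C, if z ∉ A ∧ z ∈ B then 1 else 0 := by
      intro z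
      simp only [p, q, card_filter, sum_mul_sum]
      refine sum_congr rfl fun A _ => sum_congr rfl fun B _ => ?_
      by_cases h1 : z ∈ A <;> by_cases h2 : z ∈ B <;> simp [h1, h2]
    rw [sum_congr rfl (fun z _ => this z), sum_comm]
    refine sum_congr rfl fun A _ => ?_
    rw [sum_comm]
    refine sum_congr rfl fun B _ => ?_
    rw [← card_filter]
    congr 1
    ext z
    simp only [mem_filter, mem_univ, true_and, mem_sdiff]
    tauto
  have h3 : 2 * ∑ z, p z * q z = ∑ A ∈ C, ∑ B ∈ C, #(symmDiff A B) := by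
    have h2' : ∑ z, p z * q z = ∑ A ∈ C, ∑ B ∈ C, #(A \ B) := by rw [h2, sum_comm]
    rw [two_mul]
    nth_rewrite 2 [h2]
    rw [h2', ← sum_add_distrib]
    refine sum_congr rfl fun A _ => ?_
    rw [← sum_add_distrib]
    refine sum_congr rfl fun B _ => ?_
    rw [symmDiff_def, sup_eq_union, card_union_of_disjoint
      (disjoint_sdiff_sdiff : Disjoint (A \ B) (B \ A))]
  have h4 : δ * (b * (b - 1)) ≤ ∑ A ∈ C, ∑ B ∈ C, #(symmDiff A B) := by
    have : ∀ A ∈ C, δ * (b - 1) ≤ ∑ B ∈ C, #(symmDiff A B) := by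
      intro A hA
      calc δ * (b - 1) = ∑ B ∈ C.erase A, δ := by
            rw [sum_const, card_erase_of_mem hA, smul_eq_mul, mul_comm]
        _ ≤ ∑ B ∈ C.erase A, #(symmDiff A B) := by
            refine sum_le_sum fun B hB => hδ A hA B (mem_of_mem_erase hB) ?_
            exact (ne_of_mem_erase hB).symm
        _ ≤ ∑ B ∈ C, #(symmDiff A B) := sum_le_sum_of_subset (erase_subset _ _)
    calc δ * (b * (b - 1)) = ∑ A ∈ C, δ * (b - 1) := by
          rw [sum_const, smul_eq_mul, ← hb]; ring
      _ ≤ _ := sum_le_sum this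
  have h5 : b * (δ * (b - 1)) ≤ b * (2 * ∑ z, min (p z) (q z)) := by
    calc b * (δ * (b - 1)) = δ * (b * (b - 1)) := by ring
      _ ≤ 2 * ∑ z, p z * q z := by rw [h3]; exact h4
      _ ≤ 2 * ∑ z, b * min (p z) (q z) := Nat.mul_le_mul_left _ (sum_le_sum fun z _ => h1 z)
      _ = b * (2 * ∑ z, min (p z) (q z)) := by rw [← mul_sum]; ring
  have h6 : δ * (b - 1) ≤ 2 * ∑ z, min (p z) (q z) := Nat.le_of_mul_le_mul_left h5 hbpos
  have h7 : δ * b = δ * (b - 1) + δ := by
    obtain ⟨c, hc⟩ : ∃ c, b = c + 1 := ⟨b - 1, by omega⟩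
    rw [hc]; simp; ring
  change δ * b ≤ 2 * ∑ z, min (p z) (q z) + δ
  omega

/-- The lower bound for the weight of the edges in a given direction, averaged over the point in
that direction. -/
theorem le_sum_wEdge_update (F : Finset (Finset α)) (δ : ℕ)
    (hδ : ∀ A ∈ F, ∀ B ∈ F, A ≠ B → δ ≤ #(symmDiff A B)) (x : Fin m → α) (i : Fin m) :
    δ * #F ≤ 2 * ∑ z, wEdge F (Function.update x i z) i + δ * #(F.image (trc x)) := by
  classical
  let cl : Finset (Fin m) → Finset (Finset α) := fun Q => F.filter (fun A => (trc x A).erase i = Q)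
  let I : Finset (Finset (Fin m)) := univ.filter (fun Q => i ∉ Q)
  have h1 : #F = ∑ Q ∈ I, #(cl Q) := by
    apply card_eq_sum_card_fiberwise
    intro A _
    simp [I]
  have h2 : ∑ z, wEdge F (Function.update x i z) i =
      ∑ Q ∈ I, ∑ z, min #((cl Q).filter (fun A => z ∉ A)) #((cl Q).filter (fun A => z ∈ A)) := by
    unfold wEdge
    rw [sum_comm]
    refine sum_congr rfl fun Q hQ => sum_congr rfl fun z _ => ?_
    have hQ' : i ∉ Q := (mem_filter.1 hQ).2
    have e1 : wt F (Function.update x i z) Q = #((cl Q).filter (fun A => z ∉ A)) := by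
      unfold wt
      congr 1
      ext A
      simp only [mem_filter, cl, trc_update x i z A Q hQ', and_assoc]
    have e2 : wt F (Function.update x i z) (insert i Q) = #((cl Q).filter (fun A => z ∈ A)) := by
      unfold wt
      congr 1
      ext A
      simp only [mem_filter, cl, trc_update_insert x i z A Q hQ', and_assoc]
    rw [e1, e2]
  have h3 : ∑ Q ∈ I, (if (cl Q).Nonempty then 1 else 0) ≤ #(F.image (trc x)) := by
    rw [← card_filter]
    have : I.filter (fun Q => (cl Q).Nonempty) ⊆ (F.image (trc x)).image (fun P => P.erase i) := by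
      intro Q hQ
      obtain ⟨A, hA⟩ := (mem_filter.1 hQ).2
      rw [mem_filter] at hA
      rw [image_image]
      exact mem_image.2 ⟨A, hA.1, hA.2⟩
    exact (card_le_card this).trans card_image_le
  have h4 : ∀ Q ∈ I, δ * #(cl Q) ≤
      2 * ∑ z, min #((cl Q).filter (fun A => z ∉ A)) #((cl Q).filter (fun A => z ∈ A)) +
      δ * (if (cl Q).Nonempty then 1 else 0) := by
    intro Q _
    exact class_bound (cl Q) δ fun A hA B hB hAB =>
      hδ A (mem_filter.1 hA).1 B (mem_filter.1 hB).1 hAB
  calc δ * #F = ∑ Q ∈ I, δ * #(cl Q) := by rw [h1, mul_sum]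
    _ ≤ ∑ Q ∈ I, (2 * ∑ z, min #((cl Q).filter (fun A => z ∉ A)) #((cl Q).filter (fun A => z ∈ A)) +
      δ * (if (cl Q).Nonempty then 1 else 0)) := sum_le_sum h4
    _ = 2 * ∑ z, wEdge F (Function.update x i z) i +
        δ * ∑ Q ∈ I, (if (cl Q).Nonempty then 1 else 0) := by
        rw [sum_add_distrib, h2, ← mul_sum, ← mul_sum]
    _ ≤ _ := Nat.add_le_add_left (Nat.mul_le_mul_left _ h3) _

/-- Resampling one coordinate. -/
lemma sum_update (f : (Fin m → α) → ℕ) (i : Fin m) :
    ∑ x : Fin m → α, ∑ z, f (Function.update x i z) = Fintype.card α * ∑ x, f x := by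
  classical
  have h1 : ∑ x : Fin m → α, ∑ z, f (Function.update x i z) =
      ∑ p : (Fin m → α) × α, f (Function.update p.1 i p.2) := by
    rw [Fintype.sum_prod_type]
  have h2 : ∑ p : (Fin m → α) × α, f (Function.update p.1 i p.2) =
      ∑ p : (Fin m → α) × α, f p.1 := by
    let e : (Fin m → α) × α ≃ (Fin m → α) × α :=
      { toFun := fun p => (Function.update p.1 i p.2, p.1 i)
        invFun := fun p => (Function.update p.1 i p.2, p.1 i)
        left_inv := by rintro ⟨x, z⟩; simp
        right_inv := by rintro ⟨x, z⟩; simp }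
    exact Fintype.sum_equiv e _ _ (fun p => rfl)
  rw [h1, h2, Fintype.sum_prod_type]
  simp only [sum_const, card_univ, smul_eq_mul]
  rw [mul_sum]

/-- Sauer-Shelah for traces. -/
lemma card_image_trc_le (F : Finset (Finset α)) (d : ℕ) (hd : F.vcDim ≤ d) (x : Fin m → α) :
    #(F.image (trc x)) ≤ ∑ k ∈ Iic d, m.choose k := by
  have h1 := card_le_card_shatterer (F.image (trc x))
  have h2 := card_shatterer_le_sum_vcDim (𝒜 := F.image (trc x))
  rw [Fintype.card_fin] at h2
  refine h1.trans (h2.trans (sum_le_sum_of_subset ?_))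
  exact Iic_subset_Iic.2 ((vcDim_trc_le F x).trans hd)

lemma sum_choose_le (m d : ℕ) : ∑ k ∈ Iic d, m.choose k ≤ (m + 1) ^ d := by
  induction d with
  | zero => simp [show (Iic 0 : Finset ℕ) = {0} from rfl]
  | succ d ih =>
    have : (Iic (d + 1) : Finset ℕ) = insert (d + 1) (Iic d) := by
      ext k; simp only [mem_Iic, mem_insert]; omega
    rw [this, sum_insert (by simp)]
    calc m.choose (d + 1) + ∑ k ∈ Iic d, m.choose k ≤ m ^ (d + 1) + (m + 1) ^ d :=
          add_le_add (Nat.choose_le_pow _ _) ih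
      _ ≤ m * (m + 1) ^ d + (m + 1) ^ d := by
          gcongr
          rw [pow_succ, mul_comm]
          exact Nat.mul_le_mul_left _ (Nat.pow_le_pow_left (Nat.le_succ m) d)
      _ = (m + 1) ^ (d + 1) := by ring

/-- **Haussler's packing lemma**, in the form given by Chazelle's proof. -/
theorem packing_aux [Nonempty α] (F : Finset (Finset α)) (d δ : ℕ) (hd : F.vcDim ≤ d)
    (hδ : ∀ A ∈ F, ∀ B ∈ F, A ≠ B → δ ≤ #(symmDiff A B)) (m : ℕ) :
    m * (δ * #F) ≤ 2 * (Fintype.card α * (d * #F)) + m * (δ * (m + 1) ^ d) := by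
  classical
  set n := Fintype.card α with hn
  set M := Fintype.card (Fin m → α) with hM
  have hMpos : 0 < M := Fintype.card_pos
  have h1 : ∀ i : Fin m, M * (δ * #F) ≤
      2 * (n * ∑ x, wEdge F x i) + M * (δ * (m + 1) ^ d) := by
    intro i
    have e1 : M * (δ * #F) = ∑ _x : Fin m → α, δ * #F := by
      rw [sum_const, card_univ, smul_eq_mul]
    have e2 : M * (δ * (m + 1) ^ d) = ∑ _x : Fin m → α, δ * (m + 1) ^ d := by
      rw [sum_const, card_univ, smul_eq_mul]
    rw [e1, e2, ← sum_update (fun x => wEdge F x i) i, mul_sum, ← sum_add_distrib]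
    refine sum_le_sum fun x _ => ?_
    refine (le_sum_wEdge_update F δ hδ x i).trans ?_
    refine Nat.add_le_add_left (Nat.mul_le_mul_left _ ?_) _
    exact (card_image_trc_le F d hd x).trans (sum_choose_le m d)
  have h2 : m * (M * (δ * #F)) ≤
      2 * (n * ∑ x : Fin m → α, ∑ i, wEdge F x i) + m * (M * (δ * (m + 1) ^ d)) := by
    have := sum_le_sum (s := (univ : Finset (Fin m))) fun i _ => h1 i
    rw [sum_const, card_univ, Fintype.card_fin, smul_eq_mul, sum_add_distrib, sum_const,
      card_univ, Fintype.card_fin, smul_eq_mul, ← mul_sum, ← mul_sum, sum_comm] at this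
    exact this
  have h3 : ∑ x : Fin m → α, ∑ i, wEdge F x i ≤ M * (d * #F) := by
    calc ∑ x : Fin m → α, ∑ i, wEdge F x i ≤ ∑ _x : Fin m → α, d * #F :=
          sum_le_sum fun x _ => sum_wEdge_le F d hd x
      _ = M * (d * #F) := by rw [sum_const, card_univ, smul_eq_mul]
  have h4 : M * (m * (δ * #F)) ≤
      M * (2 * (n * (d * #F)) + m * (δ * (m + 1) ^ d)) := by
    calc M * (m * (δ * #F)) = m * (M * (δ * #F)) := by ring
      _ ≤ 2 * (n * ∑ x : Fin m → α, ∑ i, wEdge F x i) + m * (M * (δ * (m + 1) ^ d)) := h2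
      _ ≤ 2 * (n * (M * (d * #F))) + m * (M * (δ * (m + 1) ^ d)) := by
          gcongr
      _ = _ := by ring
  exact Nat.le_of_mul_le_mul_left h4 hMpos

/-- **Haussler's packing lemma.** -/
theorem packing (F : Finset (Finset α)) (d δ : ℕ) (hd : F.vcDim ≤ d)
    (hδ : ∀ A ∈ F, ∀ B ∈ F, A ≠ B → δ ≤ #(symmDiff A B)) (hδ0 : 0 < δ) (m : ℕ)
    (hm : 4 * (Fintype.card α * d) ≤ m * δ) (hm0 : 0 < m) :
    #F ≤ 2 * (m + 1) ^ d := by
  classical
  rcases isEmpty_or_nonempty α with hα | hα
  · have h1 : #F ≤ 1 := by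
      rw [card_le_one]
      intro A _ B _
      exact Subsingleton.elim _ _
    have h2 : 1 ≤ (m + 1) ^ d := Nat.one_le_pow _ _ (by omega)
    omega
  have h := packing_aux F d δ hd hδ m
  have h1 : 4 * (Fintype.card α * (d * #F)) ≤ m * (δ * #F) := by
    calc 4 * (Fintype.card α * (d * #F)) = 4 * (Fintype.card α * d) * #F := by ring
      _ ≤ m * δ * #F := Nat.mul_le_mul_right _ hm
      _ = _ := by ring
  have h2 : (m * δ) * #F ≤ (m * δ) * (2 * (m + 1) ^ d) := by
    have e1 : m * δ * #F = m * (δ * #F) := by ring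
    have e2 : m * δ * (2 * (m + 1) ^ d) = 2 * (m * (δ * (m + 1) ^ d)) := by ring
    rw [e1, e2]
    omega
  exact Nat.le_of_mul_le_mul_left h2 (Nat.mul_pos hm0 hδ0)

end Pool.Agent.Helper18
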