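import Mathlib

/-!
# Approximate twins in hypergraphs without dense spots

`H` is an `r`-graph in which any `e` edges span more than `(r - 2) e + 3` vertices. Then the
neighbourhoods (in the shadow graph) of any two different vertices are far apart.
-/

set_option autoImplicit false
set_option linter.unusedSectionVars false

namespace Pool.Agent.Helper18

open Finset

variable {V : Type*} [DecidableEq V] [Fintype V]

/-- The neighbourhood of `v` in the shadow graph of `H`: all vertices `w ≠ v` that lie in a common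
edge with `v`. -/
def nbhd (H : Finset (Finset V)) (v : V) : Finset V :=
  univ.filter (fun w => w ≠ v ∧ ∃ A ∈ H, v ∈ A ∧ w ∈ A)

lemma mem_nbhd {H : Finset (Finset V)} {v w : V} :
    w ∈ nbhd H v ↔ w ≠ v ∧ ∃ A ∈ H, v ∈ A ∧ w ∈ A := by
  simp [nbhd]

/-- The edges of `H` through `v`. -/
def star (H : Finset (Finset V)) (v : V) : Finset (Finset V) := H.filter (fun A => v ∈ A)

/-- The edges of `H` through `v` and `w`. -/
def star2 (H : Finset (Finset V)) (v w : V) : Finset (Finset V) :=
  H.filter (fun A => v ∈ A ∧ w ∈ A)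

/-- `H` has no `e` edges on at most `(r - 2) e + 3` vertices. -/
def Sparse (H : Finset (Finset V)) (r e : ℕ) : Prop :=
  ∀ S ⊆ H, S.card = e → (r - 2) * e + 3 < (S.biUnion id).card

variable {H : Finset (Finset V)} {r e : ℕ}

lemma card_star2_lt (hr : 3 ≤ r) (hu : ∀ A ∈ H, #A = r) (hs : Sparse H r e)
    {v w : V} (hvw : v ≠ w) : #(star2 H v w) < e := by
  by_contra hcon
  push Not at hcon
  obtain ⟨S, hS, hSe⟩ := exists_subset_card_eq hcon
  have hSH : S ⊆ H := hS.trans (filter_subset _ _)
  have h1 := hs S hSH hSe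
  have h2 : S.biUnion id ⊆ {v, w} ∪ S.biUnion (fun A => (A.erase v).erase w) := by
    intro x hx
    obtain ⟨A, hA, hxA⟩ := mem_biUnion.1 hx
    by_cases hxv : x = v
    · simp [hxv]
    by_cases hxw : x = w
    · simp [hxw]
    refine mem_union_right _ (mem_biUnion.2 ⟨A, hA, ?_⟩)
    simp only [mem_erase]
    exact ⟨hxw, hxv, hxA⟩
  have h3 : #(S.biUnion (fun A => (A.erase v).erase w)) ≤ #S * (r - 2) := by
    apply card_biUnion_le_card_mul
    intro A hA
    have hA2 := (mem_filter.1 (hS hA)).2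
    have hw : w ∈ A.erase v := mem_erase.2 ⟨hvw.symm, hA2.2⟩
    rw [card_erase_of_mem hw, card_erase_of_mem hA2.1, hu A (hSH hA)]
    omega
  have h4 : #({v, w} : Finset V) ≤ 2 := card_le_two
  have h5 := (card_le_card h2).trans (card_union_le _ _)
  rw [hSe, mul_comm] at h3
  omega

lemma card_star_le_nbhd (hr : 3 ≤ r) (hu : ∀ A ∈ H, #A = r) (hs : Sparse H r e) (v : V) :
    #(star H v) ≤ #(nbhd H v) * (e - 1) := by
  have h1 : star H v ⊆ (nbhd H v).biUnion (fun w => star2 H v w) := by
    intro A hA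
    obtain ⟨hAH, hvA⟩ := mem_filter.1 hA
    have : (A.erase v).Nonempty := by
      rw [← card_pos, card_erase_of_mem hvA, hu A hAH]
      omega
    obtain ⟨w, hw⟩ := this
    rw [mem_erase] at hw
    refine mem_biUnion.2 ⟨w, mem_nbhd.2 ⟨hw.1, A, hAH, hvA, hw.2⟩, ?_⟩
    exact mem_filter.2 ⟨hAH, hvA, hw.2⟩
  refine (card_le_card h1).trans (card_biUnion_le_card_mul _ _ _ ?_)
  intro w hw
  have := card_star2_lt hr hu hs (mem_nbhd.1 hw).1.symm
  omega

/-- The edges through exactly one of `y`, `z`. -/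
def mixed (H : Finset (Finset V)) (y z : V) : Finset (Finset V) :=
  H.filter (fun A => (y ∈ A ∧ z ∉ A) ∨ (z ∈ A ∧ y ∉ A))

/-- The part of an edge outside of `y`, `z`. -/
def core (y z : V) (A : Finset V) : Finset V := (A.erase y).erase z

lemma mem_core {y z x : V} {A : Finset V} : x ∈ core y z A ↔ x ≠ z ∧ x ≠ y ∧ x ∈ A := by
  simp [core]

lemma card_core (hu : ∀ A ∈ H, #A = r) {y z : V} {A : Finset V} (hA : A ∈ mixed H y z) :
    #(core y z A) = r - 1 := by
  obtain ⟨hAH, h | h⟩ := mem_filter.1 hA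
  · rw [core, erase_eq_of_notMem, card_erase_of_mem h.1, hu A hAH]
    intro h'
    exact h.2 (mem_of_mem_erase h')
  · rw [core, erase_eq_of_notMem h.2, card_erase_of_mem h.1, hu A hAH]

/-- The edges of `mixed H y z` whose core meets `X`. -/
def meet (H : Finset (Finset V)) (y z : V) (X : Finset V) : Finset (Finset V) :=
  (mixed H y z).filter (fun A => ¬ Disjoint (core y z A) X)

/-- One step of growth. -/
def grow (H : Finset (Finset V)) (y z : V) (X : Finset V) : Finset V :=
  X ∪ (meet H y z X).biUnion (core y z)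

lemma card_meet_le (hr : 3 ≤ r) (hu : ∀ A ∈ H, #A = r) (hs : Sparse H r e) (y z : V)
    (X : Finset V) : #(meet H y z X) ≤ #X * (2 * (e - 1)) := by
  have h1 : meet H y z X ⊆ X.biUnion (fun x => (meet H y z X).filter (fun A => x ∈ core y z A)) := by
    intro A hA
    have h := (mem_filter.1 hA).2
    rw [not_disjoint_iff] at h
    obtain ⟨x, hx1, hx2⟩ := h
    exact mem_biUnion.2 ⟨x, hx2, mem_filter.2 ⟨hA, hx1⟩⟩
  refine (card_le_card h1).trans (card_biUnion_le_card_mul _ _ _ ?_)
  intro x _
  by_cases hxy : x = y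
  · have : (meet H y z X).filter (fun A => x ∈ core y z A) = ∅ := by
      rw [filter_eq_empty_iff]
      intro A _ h
      exact (mem_core.1 h).2.1 hxy
    rw [this]; simp
  by_cases hxz : x = z
  · have : (meet H y z X).filter (fun A => x ∈ core y z A) = ∅ := by
      rw [filter_eq_empty_iff]
      intro A _ h
      exact (mem_core.1 h).1 hxz
    rw [this]; simp
  have h2 : (meet H y z X).filter (fun A => x ∈ core y z A) ⊆ star2 H y x ∪ star2 H z x := by
    intro A hA
    obtain ⟨hA1, hA2⟩ := mem_filter.1 hA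
    obtain ⟨hA3, hA4⟩ := mem_filter.1 (mem_filter.1 hA1).1
    have hxA := (mem_core.1 hA2).2.2
    rcases hA4 with h | h
    · exact mem_union_left _ (mem_filter.2 ⟨hA3, h.1, hxA⟩)
    · exact mem_union_right _ (mem_filter.2 ⟨hA3, h.1, hxA⟩)
  have h3 := (card_le_card h2).trans (card_union_le _ _)
  have h4 := card_star2_lt hr hu hs (Ne.symm hxy)
  have h5 := card_star2_lt hr hu hs (Ne.symm hxz)
  omega

lemma card_grow_le (hr : 3 ≤ r) (he : 1 ≤ e) (hu : ∀ A ∈ H, #A = r) (hs : Sparse H r e) (y z : V)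
    (X : Finset V) : #(grow H y z X) ≤ #X * (2 * e * r) := by
  have h1 : #((meet H y z X).biUnion (core y z)) ≤ #(meet H y z X) * (r - 1) := by
    apply card_biUnion_le_card_mul
    intro A hA
    exact (card_core hu (mem_filter.1 hA).1).le
  have h2 := card_meet_le hr hu hs y z X
  have h3 : #(grow H y z X) ≤ #X + #X * (2 * (e - 1)) * (r - 1) := by
    refine (card_union_le _ _).trans (Nat.add_le_add_left ?_ _)
    exact h1.trans (Nat.mul_le_mul_right _ h2)
  refine h3.trans ?_
  obtain ⟨e', rfl⟩ : ∃ e', e = e' + 1 := ⟨e - 1, by omega⟩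
  obtain ⟨r', rfl⟩ : ∃ r', r = r' + 1 := ⟨r - 1, by omega⟩
  simp only [Nat.add_sub_cancel]
  have : #X + #X * (2 * e') * r' = #X * (1 + 2 * e' * r') := by ring
  rw [this]
  apply Nat.mul_le_mul_left
  nlinarith

lemma card_iterate_grow_le (hr : 3 ≤ r) (he : 1 ≤ e) (hu : ∀ A ∈ H, #A = r) (hs : Sparse H r e)
    (y z : V) (X : Finset V) (j : ℕ) :
    #((grow H y z)^[j] X) ≤ #X * (2 * e * r) ^ j := by
  induction j with
  | zero => simp
  | succ j ih =>
    rw [Function.iterate_succ_apply']
    calc #(grow H y z ((grow H y z)^[j] X)) ≤ #((grow H y z)^[j] X) * (2 * e * r) :=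
          card_grow_le hr he hu hs y z _
      _ ≤ #X * (2 * e * r) ^ j * (2 * e * r) := Nat.mul_le_mul_right _ ih
      _ = #X * (2 * e * r) ^ (j + 1) := by ring

lemma subset_grow (y z : V) (X : Finset V) : X ⊆ grow H y z X := subset_union_left

lemma iterate_grow_mono (y z : V) (X : Finset V) {i j : ℕ} (hij : i ≤ j) :
    (grow H y z)^[i] X ⊆ (grow H y z)^[j] X := by
  induction j, hij using Nat.le_induction with
  | base => exact Subset.refl _
  | succ j _ ih =>
    rw [Function.iterate_succ_apply']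
    exact ih.trans (subset_grow _ _ _)

/-- The vertices covered by edges through exactly one of `y`, `z`, but not by edges of both
kinds. -/
def bad (H : Finset (Finset V)) (y z : V) : Finset V :=
  ((mixed H y z).biUnion (core y z)).filter (fun x =>
    ¬ ((∃ A ∈ H, y ∈ A ∧ z ∉ A ∧ x ∈ A) ∧ (∃ A ∈ H, z ∈ A ∧ y ∉ A ∧ x ∈ A)))

lemma card_bad_le (hr : 3 ≤ r) (hu : ∀ A ∈ H, #A = r) (hs : Sparse H r e) {y z : V}
    (hyz : y ≠ z) : #(bad H y z) ≤ #(symmDiff (nbhd H y) (nbhd H z)) + e * r := by
  have h1 : bad H y z ⊆ symmDiff (nbhd H y) (nbhd H z) ∪ (star2 H y z).biUnion id := by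
    intro x hx
    obtain ⟨hx1, hx2⟩ := mem_filter.1 hx
    obtain ⟨A, hA, hxA⟩ := mem_biUnion.1 hx1
    obtain ⟨hxz, hxy, hxA⟩ := mem_core.1 hxA
    obtain ⟨hAH, hA'⟩ := mem_filter.1 hA
    rcases hA' with ⟨h1, h2⟩ | ⟨h1, h2⟩
    · have hy : x ∈ nbhd H y := mem_nbhd.2 ⟨hxy, A, hAH, h1, hxA⟩
      by_cases hz : x ∈ nbhd H z
      · obtain ⟨-, B, hB, hzB, hxB⟩ := mem_nbhd.1 hz
        by_cases hyB : y ∈ B
        · refine mem_union_right _ (mem_biUnion.2 ⟨B, mem_filter.2 ⟨hB, hyB, hzB⟩, hxB⟩)
        · exfalso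
          exact hx2 ⟨⟨A, hAH, h1, h2, hxA⟩, ⟨B, hB, hzB, hyB, hxB⟩⟩
      · refine mem_union_left _ ?_
        rw [mem_symmDiff]
        exact Or.inl ⟨hy, hz⟩
    · have hz : x ∈ nbhd H z := mem_nbhd.2 ⟨hxz, A, hAH, h1, hxA⟩
      by_cases hy : x ∈ nbhd H y
      · obtain ⟨-, B, hB, hyB, hxB⟩ := mem_nbhd.1 hy
        by_cases hzB : z ∈ B
        · refine mem_union_right _ (mem_biUnion.2 ⟨B, mem_filter.2 ⟨hB, hyB, hzB⟩, hxB⟩)
        · exfalso
          exact hx2 ⟨⟨B, hB, hyB, hzB, hxB⟩, ⟨A, hAH, h1, h2, hxA⟩⟩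
      · refine mem_union_left _ ?_
        rw [mem_symmDiff]
        exact Or.inr ⟨hz, hy⟩
  have h2 : #((star2 H y z).biUnion id) ≤ #(star2 H y z) * r := by
    apply card_biUnion_le_card_mul
    intro A hA
    exact (hu A (mem_filter.1 hA).1).le
  have h3 := card_star2_lt hr hu hs hyz
  have h4 := (card_le_card h1).trans (card_union_le _ _)
  have h5 : #(star2 H y z) * r ≤ e * r := Nat.mul_le_mul_right _ h3.le
  omega

/-- The greedy construction of `k` edges which span few vertices. -/
lemma greedy (hr : 3 ≤ r) (hu : ∀ A ∈ H, #A = r) {y z : V}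
    (hbig : e + #(meet H y z ((grow H y z)^[e] (bad H y z))) ≤ #(mixed H y z)) :
    ∀ k, k ≤ e → ∃ S ⊆ mixed H y z, #S = k ∧ #(S.biUnion (core y z)) ≤ (r - 2) * k + 1 ∧
      ∀ A ∈ S, Disjoint (core y z A) ((grow H y z)^[e - k] (bad H y z)) := by
  intro k
  induction k with
  | zero => intro _; exact ⟨∅, by simp, by simp, by simp, by simp⟩
  | succ k ih =>
    intro hk
    obtain ⟨S, hS, hSk, hSU, hSd⟩ := ih (by omega)
    have hek : e - k = (e - (k + 1)) + 1 := by omega
    by_cases hcase : ∃ A ∈ mixed H y z, A ∉ S ∧ ¬ Disjoint (core y z A) (S.biUnion (core y z))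
    · obtain ⟨A, hA, hAS, hAd⟩ := hcase
      refine ⟨insert A S, insert_subset hA hS, by rw [card_insert_of_notMem hAS, hSk], ?_, ?_⟩
      · rw [biUnion_insert]
        have h1 := card_union_add_card_inter (core y z A) (S.biUnion (core y z))
        have h2 : 0 < #(core y z A ∩ S.biUnion (core y z)) := by
          rw [card_pos]
          rw [not_disjoint_iff_nonempty_inter] at hAd
          exact hAd
        rw [card_core hu hA] at h1
        have h3 : (r - 2) * (k + 1) = (r - 2) * k + (r - 2) := by ring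
        omega
      · intro B hB
        rcases mem_insert.1 hB with rfl | hB
        · rw [not_disjoint_iff] at hAd
          obtain ⟨x, hx1, hx2⟩ := hAd
          obtain ⟨C, hC, hxC⟩ := mem_biUnion.1 hx2
          by_contra hcon
          have h1 := hSd C hC
          rw [hek, Function.iterate_succ_apply', disjoint_left] at h1
          apply h1 hxC
          refine mem_union_right _ (mem_biUnion.2 ⟨B, mem_filter.2 ⟨hA, hcon⟩, hx1⟩)
        · refine (hSd B hB).mono_right ?_
          exact iterate_grow_mono _ _ _ (by omega)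
    · push Not at hcase
      -- `S` is closed
      have hclosed : ∀ A ∈ mixed H y z, ∀ x ∈ core y z A, x ∈ S.biUnion (core y z) → A ∈ S := by
        intro A hA x hx1 hx2
        by_contra hAS
        have := hcase A hA hAS
        rw [disjoint_left] at this
        exact this hx1 hx2
      have hgood : ∀ x ∈ S.biUnion (core y z),
          (∃ A ∈ H, y ∈ A ∧ z ∉ A ∧ x ∈ A) ∧ (∃ A ∈ H, z ∈ A ∧ y ∉ A ∧ x ∈ A) := by
        intro x hx
        by_contra hcon
        obtain ⟨C, hC, hxC⟩ := mem_biUnion.1 hx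
        have h1 : x ∈ bad H y z :=
          mem_filter.2 ⟨mem_biUnion.2 ⟨C, hS hC, hxC⟩, hcon⟩
        have h2 := hSd C hC
        rw [disjoint_left] at h2
        exact h2 hxC (iterate_grow_mono y z (bad H y z) (Nat.zero_le _) h1)
      have hne : ∀ x ∈ S.biUnion (core y z), x ≠ z ∧ x ≠ y := by
        intro x hx
        obtain ⟨C, _, hxC⟩ := mem_biUnion.1 hx
        exact ⟨(mem_core.1 hxC).1, (mem_core.1 hxC).2.1⟩
      have hcy : #(S.biUnion (core y z)) ≤ #(S.filter (fun A => y ∈ A)) * (r - 1) := by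
        have h1 : S.biUnion (core y z) ⊆ (S.filter (fun A => y ∈ A)).biUnion (core y z) := by
          intro x hx
          obtain ⟨⟨A, hAH, h1, h2, h3⟩, -⟩ := hgood x hx
          obtain ⟨hz, hy⟩ := hne x hx
          have hAm : A ∈ mixed H y z := mem_filter.2 ⟨hAH, Or.inl ⟨h1, h2⟩⟩
          have hxA : x ∈ core y z A := mem_core.2 ⟨hz, hy, h3⟩
          exact mem_biUnion.2 ⟨A, mem_filter.2 ⟨hclosed A hAm x hxA hx, h1⟩, hxA⟩
        refine (card_le_card h1).trans (card_biUnion_le_card_mul _ _ _ ?_)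
        intro A hA
        exact (card_core hu (hS (mem_filter.1 hA).1)).le
      have hcz : #(S.biUnion (core y z)) ≤ #(S.filter (fun A => ¬ y ∈ A)) * (r - 1) := by
        have h1 : S.biUnion (core y z) ⊆ (S.filter (fun A => ¬ y ∈ A)).biUnion (core y z) := by
          intro x hx
          obtain ⟨-, ⟨A, hAH, h1, h2, h3⟩⟩ := hgood x hx
          obtain ⟨hz, hy⟩ := hne x hx
          have hAm : A ∈ mixed H y z := mem_filter.2 ⟨hAH, Or.inr ⟨h1, h2⟩⟩
          have hxA : x ∈ core y z A := mem_core.2 ⟨hz, hy, h3⟩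
          exact mem_biUnion.2 ⟨A, mem_filter.2 ⟨hclosed A hAm x hxA hx, h2⟩, hxA⟩
        refine (card_le_card h1).trans (card_biUnion_le_card_mul _ _ _ ?_)
        intro A hA
        exact (card_core hu (hS (mem_filter.1 hA).1)).le
      have hsum := card_filter_add_card_filter_not (s := S) (fun A => y ∈ A)
      rw [hSk] at hsum
      have hUk : #(S.biUnion (core y z)) ≤ (r - 2) * k := by
        have h1 : 2 * #(S.biUnion (core y z)) ≤ k * (r - 1) := by
          rw [← hsum, Nat.add_mul]
          omega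
        have h2 : k * (r - 1) ≤ 2 * ((r - 2) * k) := by
          obtain ⟨r', rfl⟩ : ∃ r', r = r' + 3 := ⟨r - 3, by omega⟩
          have e1 : r' + 3 - 1 = r' + 2 := by omega
          have e2 : r' + 3 - 2 = r' + 1 := by omega
          rw [e1, e2]
          nlinarith [Nat.zero_le (k * r')]
        omega
      -- choose a new edge far away from the bad vertices
      obtain ⟨A, hA, hAS, hAm⟩ : ∃ A ∈ mixed H y z, A ∉ S ∧
          A ∉ meet H y z ((grow H y z)^[e] (bad H y z)) := by
        by_contra hcon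
        push Not at hcon
        have h1 : mixed H y z ⊆ S ∪ meet H y z ((grow H y z)^[e] (bad H y z)) := by
          intro A hA
          by_cases hAS : A ∈ S
          · exact mem_union_left _ hAS
          · exact mem_union_right _ (hcon A hA hAS)
        have h2 := (card_le_card h1).trans (card_union_le _ _)
        omega
      refine ⟨insert A S, insert_subset hA hS, by rw [card_insert_of_notMem hAS, hSk], ?_, ?_⟩
      · rw [biUnion_insert]
        have h1 := card_union_le (core y z A) (S.biUnion (core y z))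
        rw [card_core hu hA] at h1
        have h3 : (r - 2) * (k + 1) = (r - 2) * k + (r - 2) := by ring
        omega
      · intro B hB
        rcases mem_insert.1 hB with rfl | hB
        · have h1 : Disjoint (core y z B) ((grow H y z)^[e] (bad H y z)) := by
            by_contra hcon
            exact hAm (mem_filter.2 ⟨hA, hcon⟩)
          exact h1.mono_right (iterate_grow_mono _ _ _ (by omega))
        · refine (hSd B hB).mono_right ?_
          exact iterate_grow_mono _ _ _ (by omega)

lemma card_mixed_le (hr : 3 ≤ r) (he : 1 ≤ e) (hu : ∀ A ∈ H, #A = r) (hs : Sparse H r e)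
    (y z : V) :
    #(mixed H y z) ≤ e + #(bad H y z) * (2 * e * r) ^ e * (2 * e) := by
  have h0 : #(meet H y z ((grow H y z)^[e] (bad H y z))) ≤
      #(bad H y z) * (2 * e * r) ^ e * (2 * e) := by
    calc #(meet H y z ((grow H y z)^[e] (bad H y z)))
        ≤ #((grow H y z)^[e] (bad H y z)) * (2 * (e - 1)) := card_meet_le hr hu hs y z _
      _ ≤ #(bad H y z) * (2 * e * r) ^ e * (2 * e) := by
          apply Nat.mul_le_mul (card_iterate_grow_le hr he hu hs y z _ _)
          omega
  by_contra hcon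
  push Not at hcon
  have hbig : e + #(meet H y z ((grow H y z)^[e] (bad H y z))) ≤ #(mixed H y z) := by omega
  obtain ⟨S, hS, hSe, hSU, -⟩ := greedy hr hu hbig e le_rfl
  have hSH : S ⊆ H := hS.trans (filter_subset _ _)
  have h1 := hs S hSH hSe
  have h2 : S.biUnion id ⊆ {y, z} ∪ S.biUnion (core y z) := by
    intro x hx
    obtain ⟨A, hA, hxA⟩ := mem_biUnion.1 hx
    by_cases hxy : x = y
    · simp [hxy]
    by_cases hxz : x = z
    · simp [hxz]
    exact mem_union_right _ (mem_biUnion.2 ⟨A, hA, mem_core.2 ⟨hxz, hxy, hxA⟩⟩)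
  have h3 : #({y, z} : Finset V) ≤ 2 := card_le_two
  have h4 := (card_le_card h2).trans (card_union_le _ _)
  omega

/-- The constant of the twins lemma. -/
def twinConst (r e : ℕ) : ℕ := r * (2 * e + (2 * e * r) ^ e * (2 * e) * (e * r + 1))

/-- **Approximate twins lemma.** In an `r`-graph without `e` edges on `(r - 2) e + 3` vertices the
neighbourhoods of any two vertices differ in a positive proportion of their size. -/
theorem card_nbhd_le (hr : 3 ≤ r) (he : 1 ≤ e) (hu : ∀ A ∈ H, #A = r) (hs : Sparse H r e)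
    {y z : V} (hyz : y ≠ z) :
    #(nbhd H y) ≤ twinConst r e * (#(symmDiff (nbhd H y) (nbhd H z)) + 1) := by
  set D := #(symmDiff (nbhd H y) (nbhd H z)) with hD
  have h1 : #(nbhd H y) ≤ #(star H y) * r := by
    have : nbhd H y ⊆ (star H y).biUnion id := by
      intro x hx
      obtain ⟨_, A, hA, hyA, hxA⟩ := mem_nbhd.1 hx
      exact mem_biUnion.2 ⟨A, mem_filter.2 ⟨hA, hyA⟩, hxA⟩
    refine (card_le_card this).trans (card_biUnion_le_card_mul _ _ _ ?_)
    intro A hA
    exact (hu A (mem_filter.1 hA).1).le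
  have h2 : #(star H y) ≤ #(mixed H y z) + #(star2 H y z) := by
    refine (card_le_card ?_).trans (card_union_le _ _)
    intro A hA
    obtain ⟨hA1, hA2⟩ := mem_filter.1 hA
    by_cases hz : z ∈ A
    · exact mem_union_right _ (mem_filter.2 ⟨hA1, hA2, hz⟩)
    · exact mem_union_left _ (mem_filter.2 ⟨hA1, Or.inl ⟨hA2, hz⟩⟩)
  have h3 := card_star2_lt hr hu hs hyz
  have h4 := card_mixed_le hr he hu hs y z
  have h5 := card_bad_le hr hu hs hyz
  rw [← hD] at h5
  set c := (2 * e * r) ^ e * (2 * e) with hc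
  have h6 : #(bad H y z) * (2 * e * r) ^ e * (2 * e) ≤ c * ((e * r + 1) * (D + 1)) := by
    calc #(bad H y z) * (2 * e * r) ^ e * (2 * e) = c * #(bad H y z) := by rw [hc]; ring
      _ ≤ c * ((e * r + 1) * (D + 1)) := by
          apply Nat.mul_le_mul_left
          nlinarith [Nat.zero_le (e * r * D), Nat.zero_le D]
  have h7 : #(star H y) ≤ 2 * e + c * ((e * r + 1) * (D + 1)) := by omega
  calc #(nbhd H y) ≤ #(star H y) * r := h1
    _ ≤ (2 * e + c * ((e * r + 1) * (D + 1))) * r := Nat.mul_le_mul_right _ h7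
    _ ≤ (2 * e * (D + 1) + c * ((e * r + 1) * (D + 1))) * r := by
        apply Nat.mul_le_mul_right
        apply Nat.add_le_add_right
        exact Nat.le_mul_of_pos_right _ (Nat.succ_pos D)
    _ = twinConst r e * (D + 1) := by rw [twinConst, ← hc]; ring

end Pool.Agent.Helper18
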